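import Mathlib
import Pool.Agent.N285.GP.Poly
import Pool.Agent.N740.HK.Sch

/-!
# Prime values of `k² + 3 k + 1` in the sieved sequential random models of the primes

The integers are decided one after the other; the multiples of the primes of a finite set `Q` are never
chosen and the conditional probability of choosing an integer `n + 1` which is not such a multiple,
given the decisions up to `n`, is asymptotic to `∏_{p ∈ Q} (1 - 1 / p)⁻¹ / log n`, almost surely.  No
independence and no rate of convergence are assumed.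

In every such model the limit of the question exists almost surely and is `C_Q / 2`, where `C_Q` is the product
of the problem restricted to the primes of `Q`; for `Q` = all primes below `128` it lies in `[1.77, 1.78]`.
Moreover, almost surely, for every integer polynomial `f` of positive degree `d` with positive leading coefficient
and without a fixed divisor in `Q`, the largest gaps between the successive `k` with `f(k)` chosen are exactly of
size `(d / C_Q(f)) log² k`.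
-/

set_option autoImplicit false

open MeasureTheory Filter Set ProbabilityTheory Polynomial
open scoped Topology

namespace Pool.Agent.Results.MP_d57abb_nt.SievedModels

variable {Ω : Type}

/-- `A n` is the event that `n` is chosen; adapted to `ℱ`; multiples of the primes in `Q` are not
chosen; the conditional probability of `A (n + 1)` given `ℱ n`, times `log n`, tends almost surely to
`∏_{p ∈ Q} (1 - 1 / p)⁻¹` along the `n` such that no `p ∈ Q` divides `n + 1` -/
def SievedModel [m : MeasurableSpace Ω] (μ : Measure Ω) (ℱ : Filtration ℕ m) (A : ℕ → Set Ω)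
    (Q : Finset ℕ) : Prop :=
  (∀ n, MeasurableSet[ℱ n] (A n)) ∧ (∀ n, (∃ p ∈ Q, p ∣ n) → A n = ∅) ∧
  ∀ᵐ ω ∂μ, Tendsto (fun n : ℕ => (μ[(A (n + 1)).indicator (fun _ => (1 : ℝ)) | ℱ n]) ω * Real.log n)
    (atTop ⊓ 𝓟 {n : ℕ | ∀ p ∈ Q, ¬ p ∣ n + 1}) (𝓝 (∏ p ∈ Q, (1 - 1 / (p : ℝ))⁻¹))

/-- The independent sieved model: independent events, no multiple of a `p ∈ Q` is chosen, all other large `n` are
chosen with probability `∏_{p ∈ Q} (1 - 1 / p)⁻¹ / log n`. -/
def IndependentModel [MeasurableSpace Ω] (μ : Measure Ω) (A : ℕ → Set Ω) (Q : Finset ℕ) : Prop :=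
  (∀ n, MeasurableSet (A n)) ∧ iIndepSet A μ ∧ (∀ n, (∃ p ∈ Q, p ∣ n) → A n = ∅) ∧
  ∀ᶠ n : ℕ in atTop, (∀ p ∈ Q, ¬ p ∣ n) → μ (A n) = ENNReal.ofReal ((∏ p ∈ Q, (1 - 1 / (p : ℝ))⁻¹) / Real.log n)

open Classical in
/-- The random sieve of Hawkins: `2` is chosen, and given the decisions up to `n ≥ 2` the number
`n + 1` is chosen with probability `∏ (1 - 1 / h)`, the product over the chosen `2 ≤ h ≤ n`. -/
def HawkinsSieve [m : MeasurableSpace Ω] (μ : Measure Ω) (ℱ : Filtration ℕ m) (A : ℕ → Set Ω) : Prop :=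
  (∀ n, MeasurableSet[ℱ n] (A n)) ∧ A 2 = univ ∧
  ∀ n, 2 ≤ n → μ[(A (n + 1)).indicator (fun _ => (1 : ℝ)) | ℱ n] =ᵐ[μ]
    fun ω => ∏ h ∈ Finset.Icc 2 n, if ω ∈ A h then 1 - 1 / (h : ℝ) else 1

/-- `a(n)`: the number of `1 ≤ k ≤ 10 ^ n` with `k² + 3 k + 1` in `S` -/
noncomputable def a (S : Set ℕ) (n : ℕ) : ℕ := {k : ℕ | 1 ≤ k ∧ k ≤ 10 ^ n ∧ k ^ 2 + 3 * k + 1 ∈ S}.ncard

/-- `π(x)`: the number of `1 ≤ q ≤ x` in `S` -/
noncomputable def piCount (S : Set ℕ) (x : ℕ) : ℕ := {q : ℕ | 1 ≤ q ∧ q ≤ x ∧ q ∈ S}.ncard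

/-- `ω(p)`: the number of `0 ≤ r < p` with `p ∣ f(r)` -/
noncomputable def omega (f : ℤ[X]) (p : ℕ) : ℕ := {r : ℕ | r < p ∧ (p : ℤ) ∣ f.eval (r : ℤ)}.ncard

/-- the constant of Bateman and Horn restricted to the primes of `Q` -/
noncomputable def const (Q : Finset ℕ) (f : ℤ[X]) : ℝ := ∏ p ∈ Q, (1 - (omega f p : ℝ) / p) / (1 - 1 / (p : ℝ))

/-- the set of the `k ≥ 1` with `f(k)` in `S` -/
def args (S : Set ℕ) (f : ℤ[X]) : Set ℕ := {k | 1 ≤ k ∧ ∃ q ∈ S, (q : ℤ) = f.eval (k : ℤ)}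

/-- the member number `j` (from zero) of a set of natural numbers -/
noncomputable def member (K : Set ℕ) (j : ℕ) : ℕ := Nat.nth (· ∈ K) j

open Pool.Agent.N740.HK Pool.Agent.R528.RM Pool.Agent.N285.GP

lemma prod_inv (A : ℕ → Set Ω) (n : ℕ) (ω : Ω) [DecidablePred fun h => ω ∈ A h] :
    (∏ h ∈ Finset.Icc 2 n, if ω ∈ A h then 1 - 1 / (h : ℝ) else 1) = (Y A n ω)⁻¹ := by
  unfold Y
  rw [← Finset.prod_inv_distrib]
  refine Finset.prod_congr rfl fun h hh => ?_
  have h2 : (2 : ℝ) ≤ h := by exact_mod_cast (Finset.mem_Icc.1 hh).1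
  by_cases hA : ω ∈ A h
  · rw [if_pos hA, if_pos hA, inv_div]
    field_simp
  · rw [if_neg hA, if_neg hA, inv_one]

lemma tendsto_log_atTop : Tendsto (fun n : ℕ => Real.log n) atTop atTop :=
  Real.tendsto_log_atTop.comp tendsto_natCast_atTop_atTop

lemma prod_pos' (Q : Finset ℕ) (hQ : ∀ p ∈ Q, p.Prime) : 0 < ∏ p ∈ Q, (1 - 1 / (p : ℝ))⁻¹ := by
  refine Finset.prod_pos fun p hp => ?_
  have h1 : (1 : ℝ) < p := by exact_mod_cast (hQ p hp).one_lt
  rw [inv_pos, sub_pos, div_lt_one (by linarith)]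
  exact h1

lemma indep_sieved [m : MeasurableSpace Ω] (μ : Measure Ω) [IsProbabilityMeasure μ] (A : ℕ → Set Ω)
    (Q : Finset ℕ) (hQ : ∀ p ∈ Q, p.Prime) (h : IndependentModel μ A Q) :
    ∃ ℱ : Filtration ℕ m, SievedModel μ ℱ A Q := by
  obtain ⟨hA, hi, hz, hp⟩ := h
  refine ⟨gen hA, gen_meas hA, hz, ?_⟩
  have h1 : ∀ᵐ ω ∂μ, ∀ n, (μ[(A (n + 1)).indicator (fun _ => (1 : ℝ)) | gen hA n]) ω =
      (μ (A (n + 1))).toReal := ae_all_iff.2 fun n => dens_gen hA hi n
  filter_upwards [h1] with ω hω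
  set c : ℝ := ∏ p ∈ Q, (1 - 1 / (p : ℝ))⁻¹ with hc
  have hc0 : 0 < c := prod_pos' Q hQ
  have h2 : Tendsto (fun n : ℕ => c * (Real.log ((n + 1 : ℕ) : ℝ) / Real.log n)⁻¹) atTop (𝓝 (c * 1⁻¹)) :=
    (log_succ_ratio.inv₀ one_ne_zero).const_mul c
  rw [inv_one, mul_one] at h2
  refine (h2.mono_left (inf_le_left : atTop ⊓ 𝓟 {n : ℕ | ∀ p ∈ Q, ¬ p ∣ n + 1} ≤ atTop)).congr' ?_
  rw [EventuallyEq, eventually_inf_principal]
  filter_upwards [eventually_ge_atTop 2, (tendsto_add_atTop_nat 1).eventually hp] with n hn hpn hn2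
  rw [hω, hpn hn2, ENNReal.toReal_ofReal]
  · rw [inv_div]
    ring
  · exact div_nonneg hc0.le (Real.log_natCast_nonneg _)

/-- the number of `1 ≤ k ≤ x` in `args S f` -/
noncomputable def values (S : Set ℕ) (f : ℤ[X]) (x : ℕ) : ℕ := {k : ℕ | k ≤ x ∧ k ∈ args S f}.ncard

lemma values_close (S : Set ℕ) (f : ℤ[X]) (x : ℕ) :
    values S f x ≤ polyCount S {f} x + 1 ∧ polyCount S {f} x ≤ values S f x + 1 := by
  have h1 : ({k : ℕ | k ≤ x ∧ k ∈ args S f}).Finite := (Set.finite_Iic x).subset fun k hk => hk.1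
  have h2 : ({n : ℕ | n < x ∧ ∀ g ∈ ({f} : Finset ℤ[X]), ∃ a ∈ S, (a : ℤ) = g.eval (n : ℤ)}).Finite :=
    (Set.finite_Iio x).subset fun k hk => hk.1
  constructor
  · have h3 : {k : ℕ | k ≤ x ∧ k ∈ args S f} ⊆
        insert x {n : ℕ | n < x ∧ ∀ g ∈ ({f} : Finset ℤ[X]), ∃ a ∈ S, (a : ℤ) = g.eval (n : ℤ)} := by
      rintro k ⟨hk, hk1, hk2⟩
      rcases hk.lt_or_eq with h | h
      · right
        exact ⟨h, fun g hg => by rw [Finset.mem_singleton.1 hg]; exact hk2⟩
      · left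
        exact h
    exact (Set.ncard_le_ncard h3 (h2.insert x)).trans (Set.ncard_insert_le _ _)
  · have h3 : {n : ℕ | n < x ∧ ∀ g ∈ ({f} : Finset ℤ[X]), ∃ a ∈ S, (a : ℤ) = g.eval (n : ℤ)} ⊆
        insert 0 {k : ℕ | k ≤ x ∧ k ∈ args S f} := by
      rintro k ⟨hk, hk2⟩
      rcases Nat.eq_zero_or_pos k with h | h
      · left
        exact h
      · right
        exact ⟨hk.le, h, hk2 f (Finset.mem_singleton_self f)⟩
    exact (Set.ncard_le_ncard h3 (h1.insert 0)).trans (Set.ncard_insert_le _ _)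

lemma log_div_tendsto : Tendsto (fun x : ℕ => Real.log x / x) atTop (𝓝 0) :=
  (Real.isLittleO_log_id_atTop.tendsto_div_nhds_zero).comp tendsto_natCast_atTop_atTop

lemma values_law {S : Set ℕ} {f : ℤ[X]} {c : ℝ}
    (h : Tendsto (fun x : ℕ => (polyCount S {f} x : ℝ) * Real.log x / x) atTop (𝓝 c)) :
    Tendsto (fun x : ℕ => (values S f x : ℝ) * Real.log x / x) atTop (𝓝 c) := by
  have h1 : Tendsto (fun x : ℕ => ((values S f x : ℝ) - polyCount S {f} x) * (Real.log x / x)) atTop (𝓝 0) := by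
    refine squeeze_zero_norm (fun x => ?_) log_div_tendsto
    have hc := values_close S f x
    have h2 : (values S f x : ℝ) ≤ polyCount S {f} x + 1 := by exact_mod_cast hc.1
    have h3 : (polyCount S {f} x : ℝ) ≤ values S f x + 1 := by exact_mod_cast hc.2
    have h4 : 0 ≤ Real.log (x : ℝ) / x := div_nonneg (Real.log_natCast_nonneg x) (Nat.cast_nonneg x)
    rw [norm_mul, Real.norm_of_nonneg h4]
    have h5 : ‖(values S f x : ℝ) - polyCount S {f} x‖ ≤ 1 := by
      rw [Real.norm_eq_abs, abs_le]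
      constructor <;> linarith
    calc _ ≤ 1 * (Real.log (x : ℝ) / x) := mul_le_mul_of_nonneg_right h5 h4
      _ = _ := one_mul _
  have h2 := h.add h1
  rw [add_zero] at h2
  refine h2.congr fun x => ?_
  ring

lemma omega_X {p : ℕ} (hp : p.Prime) : Pool.Agent.N285.GP.omega (X : ℤ[X]) p = 1 := by
  unfold Pool.Agent.N285.GP.omega
  have : {r : ℕ | r < p ∧ (p : ℤ) ∣ (X : ℤ[X]).eval (r : ℤ)} = {0} := by
    ext r
    simp only [mem_ofPred_eq, eval_X, mem_singleton_iff, Int.natCast_dvd_natCast]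
    constructor
    · rintro ⟨h1, h2⟩
      exact Nat.eq_zero_of_dvd_of_lt h2 h1
    · rintro rfl
      exact ⟨hp.pos, dvd_zero p⟩
  rw [this, Set.ncard_singleton]

lemma CQ_X (Q : Finset ℕ) (hQ : ∀ p ∈ Q, p.Prime) : CQ Q (X : ℤ[X]) = 1 := by
  unfold CQ
  refine Finset.prod_eq_one fun p hp => ?_
  rw [omega_X (hQ p hp)]
  have h1 : (1 : ℝ) < p := by exact_mod_cast (hQ p hp).one_lt
  have h2 : 0 < 1 - 1 / (p : ℝ) := by
    rw [sub_pos, div_lt_one (by linarith)]
    exact h1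
  push_cast
  exact div_self h2.ne'

lemma piCount_eq (S : Set ℕ) (x : ℕ) : piCount S x = values S X x := by
  unfold piCount values args
  congr 1
  ext k
  simp only [mem_ofPred_eq, eval_X, Nat.cast_inj, exists_eq_right]
  tauto

/-- the polynomial of the problem -/
noncomputable def f₀ : ℤ[X] := X ^ 2 + 3 * X + 1

lemma f₀_eval (k : ℤ) : f₀.eval k = k ^ 2 + 3 * k + 1 := by
  simp [f₀]

lemma f₀_deg : f₀.natDegree = 2 := by
  unfold f₀
  compute_degree!

lemma f₀_lead : f₀.leadingCoeff = 1 := by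
  unfold Polynomial.leadingCoeff
  rw [f₀_deg]
  unfold f₀
  simp [coeff_X, coeff_one]

lemma a_eq (S : Set ℕ) (n : ℕ) : a S n = values S f₀ (10 ^ n) := by
  unfold a values args
  congr 1
  ext k
  simp only [mem_ofPred_eq, f₀_eval]
  constructor
  · rintro ⟨h1, h2, h3⟩
    exact ⟨h2, h1, k ^ 2 + 3 * k + 1, h3, by push_cast; ring⟩
  · rintro ⟨h1, h2, q, hq, hq2⟩
    refine ⟨h2, h1, ?_⟩
    have : q = k ^ 2 + 3 * k + 1 := by
      have : (q : ℤ) = ((k ^ 2 + 3 * k + 1 : ℕ) : ℤ) := by rw [hq2]; push_cast; ring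
      exact_mod_cast this
    rwa [← this]

/-- a computable form of `omega f₀` -/
def w (p : ℕ) : ℕ := ((Finset.range p).filter (fun r => p ∣ r ^ 2 + 3 * r + 1)).card

lemma omega_w (p : ℕ) : Pool.Agent.N285.GP.omega f₀ p = w p := by
  unfold Pool.Agent.N285.GP.omega w
  rw [← Set.ncard_coe_finset]
  congr 1
  ext r
  simp only [mem_ofPred_eq, f₀_eval, Finset.coe_filter, Finset.mem_range]
  have : ((r : ℤ) ^ 2 + 3 * r + 1) = ((r ^ 2 + 3 * r + 1 : ℕ) : ℤ) := by push_cast; ring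
  rw [this, Int.natCast_dvd_natCast]

/-- the primes below `128` -/
def smallPrimes : Finset ℕ := (Finset.range 128).filter Nat.Prime

lemma num_facts : 354 * ∏ p ∈ smallPrimes, (p - 1) ≤ 100 * ∏ p ∈ smallPrimes, (p - w p) ∧
    100 * ∏ p ∈ smallPrimes, (p - w p) ≤ 356 * ∏ p ∈ smallPrimes, (p - 1) := by
  decide +kernel

lemma num_cast (D N : ℕ) (g1 : 354 * D ≤ 100 * N) (g2 : 100 * N ≤ 356 * D) (hD : 0 < D) :
    1.77 ≤ (N : ℝ) / D / 2 ∧ (N : ℝ) / D / 2 ≤ 1.78 := by
  have hD' : (0 : ℝ) < D := by exact_mod_cast hD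
  have g1' : (354 : ℝ) * D ≤ 100 * N := by exact_mod_cast g1
  have g2' : (100 : ℝ) * N ≤ 356 * D := by exact_mod_cast g2
  constructor
  · rw [div_div, le_div_iff₀ (by positivity)]
    linarith
  · rw [div_div, div_le_iff₀ (by positivity)]
    linarith

lemma w_le (p : ℕ) : w p ≤ p := by
  unfold w
  refine (Finset.card_filter_le _ _).trans ?_
  rw [Finset.card_range]

lemma CQ_small : 1.77 ≤ CQ smallPrimes f₀ / 2 ∧ CQ smallPrimes f₀ / 2 ≤ 1.78 := by
  have hpr : ∀ p ∈ smallPrimes, p.Prime := fun p hp => (Finset.mem_filter.1 hp).2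
  have h1 : CQ smallPrimes f₀ = ((∏ p ∈ smallPrimes, (p - w p) : ℕ) : ℝ) / ((∏ p ∈ smallPrimes, (p - 1) : ℕ) : ℝ) := by
    unfold CQ
    rw [Nat.cast_prod, Nat.cast_prod, ← Finset.prod_div_distrib]
    refine Finset.prod_congr rfl fun p hp => ?_
    have h2 : (1 : ℝ) < p := by exact_mod_cast (hpr p hp).one_lt
    rw [omega_w, Nat.cast_sub (w_le p), Nat.cast_sub (hpr p hp).one_le, Nat.cast_one]
    have h3 : (p : ℝ) - 1 ≠ 0 := by linarith
    have h4 : (p : ℝ) ≠ 0 := by linarith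
    field_simp
  have hpos : 0 < ∏ p ∈ smallPrimes, (p - 1) := Finset.prod_pos fun p hp => by
    have := (hpr p hp).two_le
    omega
  rw [h1]
  exact num_cast _ _ num_facts.1 num_facts.2 hpos

end Pool.Agent.Results.MP_d57abb_nt.SievedModels

open Pool.Agent.Results.MP_d57abb_nt.SievedModels
open Pool.Agent.R528.RM (totient_prod bh_final)
open Pool.Agent.N285.GP (CQ CQ_pos bhConst_eq omega_eq poly_gaps)

/-- The independent sieved model is a sieved model for some filtration, and the random sieve of Hawkins is one with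
`Q = ∅`.  In every sieved model, almost surely: (1) `a(n) / π(10 ^ n)` converges to `C_Q(X² + 3 X + 1) / 2`, so
that for `Q` = the primes below `128` the limit exists and lies in `[1.77, 1.78]`; (2) for EVERY integer
polynomial `f` of positive degree `d` with positive leading coefficient all of whose values are not divisible by a
fixed `p ∈ Q`: the set of the `k ≥ 1` with `f(k)` chosen is infinite, and if `k_0 < k_1 < ...` are its members,
`limsup (k_(j+1) - k_j) / log² k_j = d / C_Q(f)`: for every `ε > 0` the gap is at most `(d / C_Q(f) + ε) log² k_j` for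
all large `j`, and at least `(d / C_Q(f) - ε) log² k_j` for infinitely many `j`. -/
theorem Pool.Agent.Results.MP_d57abb_nt.SievedModels.result
    {Ω : Type} [m : MeasurableSpace Ω] (μ : Measure Ω) [IsProbabilityMeasure μ] (A : ℕ → Set Ω)
    (Q : Finset ℕ) (hQ : ∀ p ∈ Q, p.Prime) :
    (IndependentModel μ A Q → ∃ ℱ : Filtration ℕ m, SievedModel μ ℱ A Q) ∧
    ∀ ℱ : Filtration ℕ m,
    (HawkinsSieve μ ℱ A → SievedModel μ ℱ A ∅) ∧
    (SievedModel μ ℱ A Q → ∀ᵐ ω ∂μ,
      Tendsto (fun n : ℕ => (a {q | ω ∈ A q} n : ℝ) / piCount {q | ω ∈ A q} (10 ^ n)) atTop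
        (𝓝 (const Q (X ^ 2 + 3 * X + 1) / 2)) ∧
      (Q = (Finset.range 128).filter Nat.Prime → ∃ L : ℝ, 1.77 ≤ L ∧ L ≤ 1.78 ∧
        Tendsto (fun n : ℕ => (a {q | ω ∈ A q} n : ℝ) / piCount {q | ω ∈ A q} (10 ^ n)) atTop (𝓝 L)) ∧
      ∀ f : ℤ[X], 0 < f.natDegree → 0 < f.leadingCoeff → (∀ p ∈ Q, ∃ r : ℤ, ¬ (p : ℤ) ∣ f.eval r) →
        0 < const Q f ∧ (args {q | ω ∈ A q} f).Infinite ∧ ∀ ε : ℝ, 0 < ε →
          (∀ᶠ j : ℕ in atTop, (member (args {q | ω ∈ A q} f) (j + 1) : ℝ) - member (args {q | ω ∈ A q} f) j ≤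
            (f.natDegree / const Q f + ε) * Real.log (member (args {q | ω ∈ A q} f) j) ^ 2) ∧
          ∃ᶠ j : ℕ in atTop, (f.natDegree / const Q f - ε) * Real.log (member (args {q | ω ∈ A q} f) j) ^ 2 ≤
            (member (args {q | ω ∈ A q} f) (j + 1) : ℝ) - member (args {q | ω ∈ A q} f) j) := by
  classical
  refine ⟨indep_sieved μ A Q hQ, fun ℱ => ⟨?_, ?_⟩⟩
  · rintro ⟨h1, h2, h3⟩
    have hs : Pool.Agent.N740.HK.HS μ ℱ A := ⟨h1, h2, fun n hn => by
      filter_upwards [h3 n hn] with ω hω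
      rw [← prod_inv]
      exact hω⟩
    refine ⟨h1, fun n hn => ?_, ?_⟩
    · obtain ⟨p, hp, _⟩ := hn
      exact absurd hp (Finset.notMem_empty p)
    · filter_upwards [Pool.Agent.N740.HK.hawk_dens hs] with ω hω
      rw [Finset.prod_empty]
      exact hω.mono_left inf_le_left
  · rintro ⟨hA, hcop, hd⟩
    set W := ∏ p ∈ Q, p with hWdef
    have hW : 0 < W := Finset.prod_pos fun q hq => (hQ q hq).pos
    have hc : ∀ n, Nat.Coprime n W ↔ ∀ p ∈ Q, ¬ p ∣ n := by
      intro n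
      rw [hWdef, Nat.coprime_prod_right_iff]
      refine forall₂_congr fun p hp => ?_
      rw [Nat.coprime_comm]
      exact Nat.Prime.coprime_iff_not_dvd (hQ p hp)
    have hgaps := poly_gaps (μ := μ) (ℱ := ℱ) hA W hW (fun n hn => hcop n (by
      rw [hc] at hn
      push Not at hn
      exact hn)) (by
      rw [totient_prod Q hQ]
      simp_rw [hc]
      exact hd)
    filter_upwards [hgaps, bh_final (μ := μ) hA Q hQ hcop hd] with ω g1 g2
    have hlaw : ∀ f : ℤ[X], 0 < f.natDegree → 0 < f.leadingCoeff →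
        Tendsto (fun x : ℕ => (values {q | ω ∈ A q} f x : ℝ) * Real.log x / x) atTop (𝓝 (CQ Q f / f.natDegree)) := by
      intro f h1 h2
      apply values_law
      have h3 := g2 {f} (fun g hg => by rw [Finset.mem_singleton.1 hg]; exact ⟨h1, h2⟩)
      simp only [Finset.card_singleton, pow_one, Finset.prod_singleton, omega_eq] at h3
      rw [div_eq_mul_inv]
      exact h3
    have hpi := hlaw X (by simp) (by simp)
    rw [CQ_X Q hQ, natDegree_X, Nat.cast_one, div_one] at hpi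
    have hlim : Tendsto (fun n : ℕ => (a {q | ω ∈ A q} n : ℝ) / piCount {q | ω ∈ A q} (10 ^ n)) atTop
        (𝓝 (const Q (X ^ 2 + 3 * X + 1) / 2)) := by
      have h1 := hlaw f₀ (by rw [f₀_deg]; norm_num) (by rw [f₀_lead]; norm_num)
      have h2 := h1.div hpi one_ne_zero
      rw [div_one, f₀_deg] at h2
      have h3 : Tendsto (fun n : ℕ => 10 ^ n) atTop (atTop : Filter ℕ) := tendsto_pow_atTop_atTop_of_one_lt (by norm_num)
      have h4 := h2.comp h3
      refine h4.congr' ?_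
      filter_upwards [eventually_ge_atTop 1] with n hn
      have h5 : (1 : ℝ) < ((10 ^ n : ℕ) : ℝ) := by
        push_cast
        exact one_lt_pow₀ (by norm_num) (by omega)
      have h6 : 0 < Real.log ((10 ^ n : ℕ) : ℝ) := Real.log_pos h5
      simp only [Function.comp, Pi.div_apply]
      rw [a_eq, piCount_eq]
      have h7 : Real.log ((10 ^ n : ℕ) : ℝ) / ((10 ^ n : ℕ) : ℝ) ≠ 0 := (div_pos h6 (by linarith)).ne'
      rw [mul_div_assoc, mul_div_assoc (values {q | ω ∈ A q} X (10 ^ n) : ℝ), mul_div_mul_right _ _ h7]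
    refine ⟨hlim, ?_, ?_⟩
    · intro hQ2
      refine ⟨const Q (X ^ 2 + 3 * X + 1) / 2, ?_, ?_, hlim⟩
      · rw [hQ2]
        exact CQ_small.1
      · rw [hQ2]
        exact CQ_small.2
    · intro f h1 h2 h3
      have h4 := CQ_pos Q hQ f h3
      have h5 := g1 f h1 h2 (by
        rw [hWdef, bhConst_eq Q hQ]
        exact div_pos h4 (by exact_mod_cast h1))
      rw [hWdef, bhConst_eq Q hQ, inv_div] at h5
      exact ⟨h4, h5⟩
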